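import Pool.Agent.Y28.BG.Stm

/-!
# `Tor` in `ModuleCat` and the elementary form of a projective resolution
-/

set_option autoImplicit false

open CategoryTheory

namespace Pool.Agent.Y925.BG

open Pool.Agent.Y28.BG

theorem tor : S_TOR := by
  intro R _ A X P n h
  have h1 : Limits.IsZero ((HomologicalComplex.homologyFunctor _ _ (n + 1)).obj
      ((((MonoidalCategory.tensoringLeft (ModuleCat.{0} R)).obj A).mapHomologicalComplex _).obj
        P.complex)) :=
    h.of_iso (P.isoLeftDerivedObj ((MonoidalCategory.tensoringLeft (ModuleCat.{0} R)).obj A)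
      (n + 1)).symm
  have h2 := (HomologicalComplex.exactAt_iff_isZero_homology _ _).mpr h1
  rw [HomologicalComplex.exactAt_iff' _ (n + 2) (n + 1) n (by simp) (by simp)] at h2
  have h3 := (ShortComplex.ShortExact.moduleCat_exact_iff_function_exact _).mp h2
  exact h3

theorem res : S_RES := by
  intro R _ X _ _ P
  refine ⟨fun n => ?_, fun n => ?_, ?_⟩
  · have h1 : Projective (P.complex.X n) := P.projective n
    have h2 : Module.Projective R (P.complex.X n) :=
      (IsProjective.iff_projective (P.complex.X n)).mpr h1
    infer_instance
  · exact (ShortComplex.ShortExact.moduleCat_exact_iff_function_exact _).mp (P.exact_succ n)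
  · let f : P.complex.X 0 ⟶ ModuleCat.of R X := P.π.f 0 ≫
      (HomologicalComplex.singleObjXSelf (ComplexShape.down ℕ) 0 (ModuleCat.of R X)).hom
    refine ⟨f.hom, ?_, ?_⟩
    · have : Epi f := inferInstance
      exact (ModuleCat.epi_iff_surjective f).mp this
    · have hz : P.complex.d 1 0 ≫ f = 0 := by
        have h0 := P.complex_d_comp_π_f_zero
        simp only [f]
        rw [← Category.assoc, h0, Limits.zero_comp]
      have hex : (ShortComplex.mk _ _ P.complex_d_comp_π_f_zero).Exact :=
        ShortComplex.exact_of_g_is_cokernel _ P.isColimitCokernelCofork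
      have hex2 : (ShortComplex.mk _ _ hz).Exact := by
        refine (ShortComplex.exact_iff_of_iso ?_).mp hex
        exact ShortComplex.isoMk (Iso.refl _) (Iso.refl _)
          (HomologicalComplex.singleObjXSelf (ComplexShape.down ℕ) 0 (ModuleCat.of R X))
          (by simp) (by simp [f])
      exact (ShortComplex.ShortExact.moduleCat_exact_iff_function_exact _).mp hex2

end Pool.Agent.Y925.BG
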